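import Pool.Agent.TH553.ST.Ext2
import Pool.Agent.TH553.ST.PW2

set_option autoImplicit false
set_option linter.unusedSectionVars false

/-!
# Bounds for the sizes from partial equidistribution
-/

namespace Pool.Agent.TH553.CZ

open Complex Filter Topology ComplexConjugate NumberField IsDedekindDomain MeasureTheory
  Pool.Agent.W540.BE Pool.Agent.TH553.RS Pool.Agent.TH553.ST

section

variable {K : Type} [Field K] [NumberField K] {G : Type} [Group G]
  {x : HeightOneSpectrum (𝓞 K) → G} {n n' : ℕ} {π : G →* Matrix.unitaryGroup (Fin n) ℂ}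
  {π' : G →* Matrix.unitaryGroup (Fin n') ℂ}

/-- the coefficients -/
noncomputable def cf (π : G →* Matrix.unitaryGroup (Fin n) ℂ) (x : HeightOneSpectrum (𝓞 K) → G)
    (τ : ℝ) (v : HeightOneSpectrum (𝓞 K)) : ℝ :=
  (chi π (x v) * ((nm K v : ℕ) : ℂ) ^ (-(τ * I : ℂ))).re

theorem bd_cf (τ : ℝ) : Bd (cf π x τ) := by
  refine ⟨n, fun v => (Complex.abs_re_le_norm _).trans ?_⟩
  rw [norm_mul, norm_cpow_I (nm_pos v), mul_one]
  exact norm_chi π _

/-- the limit of the size -/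
noncomputable def lm (U : Ultrafilter ℝ) (π : G →* Matrix.unitaryGroup (Fin n) ℂ)
    (x : HeightOneSpectrum (𝓞 K) → G) (τ : ℝ) : ℝ := M (nm K) U (cf π x τ)

variable {U : Ultrafilter ℝ} (hU : (U : Filter ℝ) ≤ 𝓝[>] 0)

include hU

theorem size_lm (τ : ℝ) : Tendsto (sz1 π x τ) U (𝓝 (lm U π x τ)) := by
  have h5 := M_lim (sysF K) hU (bd_cf (π := π) (x := x) τ)
  have h6 := h5.sub ((size_L1 π x τ).2.mono_left hU)
  rw [sub_zero] at h6
  refine h6.congr fun ε => ?_
  unfold cf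
  ring

theorem abs_M_le {φ : HeightOneSpectrum (𝓞 K) → ℝ} (hφ : Bd φ) {f : HeightOneSpectrum (𝓞 K) → ℝ}
    (hf : Bd f) {a : ℝ} (hfa : Tendsto (mn f) atTop (𝓝 a)) (h : ∀ v, |φ v| ≤ f v) :
    |M (nm K) U φ| ≤ a := by
  have h1 : M (nm K) U f = a := M_of_mn hU hf hfa
  rw [← h1, abs_le]
  constructor
  · rw [← M_neg (sysF K) hU hf]
    exact M_mono (sysF K) hU hf.neg hφ fun v => (abs_le.1 (h v)).1
  · exact M_mono (sysF K) hU hφ hf fun v => (abs_le.1 (h v)).2

theorem abs_lm_le {f : G → ℝ} (hf : Bd fun v => f (x v)) {a : ℝ}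
    (hfa : Tendsto (mn fun v => f (x v)) atTop (𝓝 a)) (h : ∀ g, ‖chi π g‖ ≤ f g) (τ : ℝ) :
    |lm U π x τ| ≤ a := by
  refine abs_M_le hU (bd_cf τ) hf hfa fun v => (Complex.abs_re_le_norm _).trans ?_
  rw [norm_mul, norm_cpow_I (nm_pos v), mul_one]
  exact h _

theorem abs_lm_sub_le {f : G → ℝ} (hf : Bd fun v => f (x v)) {a : ℝ}
    (hfa : Tendsto (mn fun v => f (x v)) atTop (𝓝 a)) (h : ∀ g, ‖chi π g - chi π' g‖ ≤ f g)
    (τ : ℝ) : |lm U π x τ - lm U π' x τ| ≤ a := by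
  unfold lm
  rw [← M_sub (sysF K) hU (bd_cf τ) (bd_cf τ)]
  refine abs_M_le hU ((bd_cf τ).sub (bd_cf τ)) hf hfa fun v => ?_
  unfold cf
  rw [← Complex.sub_re, ← sub_mul]
  refine (Complex.abs_re_le_norm _).trans ?_
  rw [norm_mul, norm_cpow_I (nm_pos v), mul_one]
  exact h _

theorem lm_add_zero (h : Tendsto (mn fun v => chi π (x v) + chi π' (x v)) atTop (𝓝 0)) (τ : ℝ) :
    lm U π x τ + lm U π' x τ = 0 := by
  unfold lm
  rw [← M_add (sysF K) hU (bd_cf τ) (bd_cf τ)]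
  have h1 := M_height hU (g := fun v => chi π (x v) + chi π' (x v))
    ⟨n + n', fun v => (norm_add_le _ _).trans (add_le_add (norm_chi π _) (norm_chi π' _))⟩ h τ
  rw [← h1]
  congr 1
  funext v
  unfold cf
  rw [← Complex.add_re, ← add_mul]

theorem lm_zero (h : Tendsto (mn fun v => chi π (x v)) atTop (𝓝 0)) (τ : ℝ) :
    lm U π x τ = 0 := by
  unfold lm
  exact M_height hU (g := fun v => chi π (x v)) ⟨n, fun v => norm_chi π _⟩ h τ

end

section

variable {K : Type} [Field K] [NumberField K] {G : Type} [Group G]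
  {x : HeightOneSpectrum (𝓞 K) → G} {n : ℕ} {π : G →* Matrix.unitaryGroup (Fin n) ℂ}

/-- from the limits along ultrafilters to the size -/
theorem size_le_of {τ a : ℝ} (h : ∀ U : Ultrafilter ℝ, (U : Filter ℝ) ≤ 𝓝[>] 0 → |lm U π x τ| ≤ a)
    {η : ℝ} (hη : 0 < η) : ∀ᶠ ε : ℝ in 𝓝[>] 0, |sz1 π x τ ε| ≤ a + η := by
  refine eventually_of_ultra fun U hU => ?_
  have h1 := (size_lm (π := π) (x := x) hU τ).abs
  filter_upwards [h1.eventually_lt_const (lt_of_le_of_lt (h U hU) (lt_add_of_pos_right a hη))]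
    with ε h2
  exact h2.le

theorem order_zero_of {τ a : ℝ} (ha : a < 1)
    (h : ∀ U : Ultrafilter ℝ, (U : Filter ℝ) ≤ 𝓝[>] 0 → |lm U π x τ| ≤ a)
    {Λ : ℂ → ℂ} (h1 : MeromorphicAt Λ (1 + τ * I))
    (h2 : ∀ᶠ s in 𝓝 ((1 : ℂ) + τ * I), (1 : ℝ) < s.re → Λ s = L1 π x s) :
    meromorphicOrderAt Λ (1 + τ * I) = ((0 : ℤ) : WithTop ℤ) := by
  obtain ⟨m, h3, h4⟩ := order_L1 h1 h2
  have h5 : m = 0 := by
    have h6 := le_of_tendsto h4.abs (size_le_of h (show (0 : ℝ) < (1 - a) / 2 by linarith))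
    rw [abs_neg] at h6
    have h7 : |(m : ℝ)| < 1 := by linarith
    have h8 : |m| < 1 := by exact_mod_cast h7
    exact Int.abs_lt_one_iff.1 h8
  rw [h3, h5]

end

section

variable {G : Type} [Group G] [TopologicalSpace G] [IsTopologicalGroup G] [CompactSpace G]
  [MeasurableSpace G] [BorelSpace G] {μ : Measure G} [IsProbabilityMeasure μ] [μ.IsHaarMeasure]
  {n n' : ℕ} {π : G →* Matrix.unitaryGroup (Fin n) ℂ} {π' : G →* Matrix.unitaryGroup (Fin n') ℂ}

theorem int_sub_sq {F : G → ℝ} (hF : Continuous F) (c : ℝ) :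
    ∫ g, (F g - c) ^ 2 ∂μ = (∫ g, F g ^ 2 ∂μ) - 2 * c * (∫ g, F g ∂μ) + c ^ 2 := by
  have i1 : Integrable (fun g => F g ^ 2) μ := intg (hF.pow 2)
  have i2 : Integrable (fun g => 2 * c * F g) μ := intg (continuous_const.mul hF)
  have i3 : Integrable (fun g => F g ^ 2 - 2 * c * F g) μ := i1.sub i2
  have e : ∀ g, (F g - c) ^ 2 = (F g ^ 2 - 2 * c * F g) + c ^ 2 := fun g => by ring
  simp only [e]
  rw [integral_add i3 (integrable_const _), integral_sub i1 i2, integral_const_mul]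
  simp

/-- the first moment of the absolute value -/
theorem int_abs_lt (hc : Continuous π) (hs : Schur π) (hn : 2 ≤ n) : ∫ g, ‖chi π g‖ ∂μ < 1 := by
  have h2 : ∫ g, ‖chi π g‖ ^ 2 ∂μ = 1 := int_sq hc hs (by omega)
  have hcn : Continuous fun g => ‖chi π g‖ := (cont_chi hc).norm
  have h3 : ∫ g, (‖chi π g‖ - 1) ^ 2 ∂μ = 2 - 2 * ∫ g, ‖chi π g‖ ∂μ := by
    rw [int_sub_sq hcn 1, h2]
    ring
  have h4 : 0 < ∫ g, (‖chi π g‖ - 1) ^ 2 ∂μ := by
    have h5 : Continuous fun g => (‖chi π g‖ - 1) ^ 2 := (hcn.sub continuous_const).pow 2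
    refine h5.integral_pos_of_hasCompactSupport_nonneg_nonzero
      (HasCompactSupport.of_compactSpace _) (fun g => sq_nonneg _) (x := 1) ?_
    have h6 : chi π 1 = n := by
      unfold chi
      rw [map_one]
      simp
    rw [h6, Complex.norm_natCast]
    have : (2 : ℝ) ≤ n := by exact_mod_cast hn
    have h7 : (0 : ℝ) < (n : ℝ) - 1 := by linarith
    positivity
  linarith

/-- two different irreducible characters -/
theorem int_sub_le (hc : Continuous π) (hs : Schur π) (hc' : Continuous π') (hs' : Schur π')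
    (h : chi π ≠ chi π') : ∫ g, ‖chi π g - chi π' g‖ ∂μ ≤ √2 := by
  have hcn : Continuous fun g => ‖chi π g - chi π' g‖ := ((cont_chi hc).sub (cont_chi hc')).norm
  have h1 : ∫ g, ‖chi π g - chi π' g‖ ^ 2 ∂μ ≤ 2 := by
    have e : ∀ g, ‖chi π g - chi π' g‖ ^ 2 = ‖chi π g‖ ^ 2 + ‖chi π' g‖ ^ 2 -
        2 * (chi π g * conj (chi π' g)).re := by
      intro g
      rw [← Complex.normSq_eq_norm_sq, Complex.normSq_sub, Complex.normSq_eq_norm_sq,
        Complex.normSq_eq_norm_sq]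
    simp only [e]
    have c1 : Continuous fun g => ‖chi π g‖ ^ 2 := (cont_chi hc).norm.pow 2
    have c2 : Continuous fun g => ‖chi π' g‖ ^ 2 := (cont_chi hc').norm.pow 2
    have c4 : Continuous fun g => chi π g * conj (chi π' g) :=
      (cont_chi hc).mul (Complex.continuous_conj.comp (cont_chi hc'))
    have c3 : Continuous fun g => 2 * (chi π g * conj (chi π' g)).re :=
      continuous_const.mul (Complex.continuous_re.comp c4)
    have i1 : Integrable (fun g => ‖chi π g‖ ^ 2 + ‖chi π' g‖ ^ 2) μ := (intg c1).add (intg c2)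
    rw [integral_sub i1 (intg c3), integral_add (intg c1) (intg c2), integral_const_mul]
    have h2 : ∫ g, (chi π g * conj (chi π' g)).re ∂μ = (∫ g, chi π g * conj (chi π' g) ∂μ).re := by
      have := (Complex.reCLM.integral_comp_comm (intg (μ := μ) c4))
      exact this
    rw [h2, int_conj_ne hc hs hc' hs' h]
    have h3 := int_sq_le (μ := μ) hc hs
    have h4 := int_sq_le (μ := μ) hc' hs'
    linarith
  set A := ∫ g, ‖chi π g - chi π' g‖ ∂μ with hA
  have h2 : 0 ≤ ∫ g, (‖chi π g - chi π' g‖ - √2) ^ 2 ∂μ := integral_nonneg fun g => sq_nonneg _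
  have h3 : ∫ g, (‖chi π g - chi π' g‖ - √2) ^ 2 ∂μ =
      (∫ g, ‖chi π g - chi π' g‖ ^ 2 ∂μ) - 2 * √2 * A + 2 := by
    rw [int_sub_sq hcn √2, Real.sq_sqrt (by norm_num)]
  rw [h3] at h2
  have h4 : √2 * A ≤ 2 := by linarith
  have h5 : (√2 : ℝ) * √2 = 2 := Real.mul_self_sqrt (by norm_num)
  have h6 : (0 : ℝ) < √2 := by positivity
  by_contra hcon
  push Not at hcon
  have h7 : √2 * √2 < √2 * A := mul_lt_mul_of_pos_left hcon h6
  linarith

end

end Pool.Agent.TH553.CZ
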