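import Pool.Agent.TH553.CZ.Four

set_option autoImplicit false
set_option linter.unusedSectionVars false

/-!
# Families of systems whose products have known orders at one point
-/

namespace Pool.Agent.TH553.CZ

open Complex Filter Topology ComplexConjugate NumberField IsDedekindDomain MeasureTheory
  Pool.Agent.W540.BE Pool.Agent.TH553.RS Pool.Agent.TH553.ST Pool.Agent.H341R2
open scoped Kronecker

section

variable {K : Type} [Field K] [NumberField K] {κ : Type} [Fintype κ] [DecidableEq κ]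
  {B : HeightOneSpectrum (𝓞 K) → Matrix κ κ ℂ}

theorem M_re_of_order (hB : ∀ v, B v ∈ Matrix.unitaryGroup κ ℂ) {Λ : ℂ → ℂ} {m : ℤ}
    (h1 : MeromorphicAt Λ 1)
    (h2 : ∀ᶠ s in 𝓝 (1 : ℂ), (1 : ℝ) < s.re → Λ s = LU B s)
    (h3 : meromorphicOrderAt Λ 1 = ((-m : ℤ) : WithTop ℤ))
    {U : Ultrafilter ℝ} (hU : (U : Filter ℝ) ≤ 𝓝[>] 0) :
    M (nm K) U (fun v => (B v).trace.re) = m := by
  have e : (1 : ℂ) = 1 + ((0 : ℝ) : ℂ) * I := by simp
  rw [e] at h1 h2 h3
  obtain ⟨m', h4, h5⟩ := order_LU hB h1 h2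
  rw [h4] at h3
  have h6 : m' = -m := by exact_mod_cast h3
  subst h6
  have h7 := h5.add (size_LU hB 0).2
  refine M_of_tendsto hU ?_
  have h8 : -(((-m : ℤ)) : ℝ) + 0 = m := by push_cast; ring
  rw [h8] at h7
  refine h7.congr fun ε => ?_
  have h9 : (fun v => ((B v).trace * ((nm K v : ℕ) : ℂ) ^ (-(((0 : ℝ) : ℂ) * I : ℂ))).re) =
      fun v => (B v).trace.re := by
    funext v
    simp
  rw [h9]
  ring

end

section

variable {K : Type} [Field K] [NumberField K] {J : Type} [Fintype J] {b : J → ℕ}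
  {A : ∀ j, HeightOneSpectrum (𝓞 K) → Matrix.unitaryGroup (Fin (b j)) ℂ}

/-- the product of two systems -/
noncomputable def prd (A : ∀ j, HeightOneSpectrum (𝓞 K) → Matrix.unitaryGroup (Fin (b j)) ℂ)
    (j l : J) (v : HeightOneSpectrum (𝓞 K)) :
    Matrix (Fin (b j) × Fin (b l)) (Fin (b j) × Fin (b l)) ℂ :=
  (A j v : Matrix (Fin (b j)) (Fin (b j)) ℂ) ⊗ₖ (A l v : Matrix (Fin (b l)) (Fin (b l)) ℂ).map conj

theorem prd_unitary (j l : J) (v : HeightOneSpectrum (𝓞 K)) :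
    prd A j l v ∈ Matrix.unitaryGroup (Fin (b j) × Fin (b l)) ℂ :=
  Matrix.kronecker_mem_unitary (A j v).2 (conj_unitary (A l v).2)

theorem trace_prd (j l : J) (v : HeightOneSpectrum (𝓞 K)) :
    (prd A j l v).trace = (A j v : Matrix (Fin (b j)) (Fin (b j)) ℂ).trace *
      conj (A l v : Matrix (Fin (b l)) (Fin (b l)) ℂ).trace := by
  unfold prd
  rw [Matrix.trace_kronecker]
  have : ((A l v : Matrix (Fin (b l)) (Fin (b l)) ℂ).map conj).trace =
      conj (A l v : Matrix (Fin (b l)) (Fin (b l)) ℂ).trace := by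
    unfold Matrix.trace
    rw [map_sum]
    rfl
  rw [this]

/-- the twisted coefficient -/
noncomputable def co (A : ∀ j, HeightOneSpectrum (𝓞 K) → Matrix.unitaryGroup (Fin (b j)) ℂ)
    (c : HeightOneSpectrum (𝓞 K) → Circle) (τ : ℝ) (j : J) (v : HeightOneSpectrum (𝓞 K)) : ℝ :=
  ((tA (A j) c v).trace * ((nm K v : ℕ) : ℂ) ^ (-(τ * I : ℂ))).re

theorem bd_co (c : HeightOneSpectrum (𝓞 K) → Circle) (τ : ℝ) (j : J) : Bd (co A c τ j) := by
  refine ⟨b j, fun v => (Complex.abs_re_le_norm _).trans ?_⟩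
  rw [norm_mul, norm_cpow_I (nm_pos v), mul_one, trace_tA, norm_mul, Circle.norm_coe, one_mul]
  exact at_le (A := A j) v

theorem size_co (c : HeightOneSpectrum (𝓞 K) → Circle) (τ : ℝ) (j : J) {U : Ultrafilter ℝ}
    (hU : (U : Filter ℝ) ≤ 𝓝[>] 0) :
    Tendsto (sU (tA (A j) c) τ) U (𝓝 (M (nm K) U (co A c τ j))) := by
  have h5 := M_lim (sysF K) hU (bd_co (A := A) c τ j)
  have h6 := h5.sub ((size_LU (tA_unitary (A := A j) c) τ).2.mono_left hU)
  rw [sub_zero] at h6
  refine h6.congr fun ε => ?_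
  unfold co
  ring

/-- **The inequality.** -/
theorem bessel_co {g : J → J → ℤ} {Λ : J → J → ℂ → ℂ} (h1 : ∀ j l, MeromorphicAt (Λ j l) 1)
    (h2 : ∀ j l, ∀ᶠ s in 𝓝 (1 : ℂ), (1 : ℝ) < s.re → Λ j l s = LU (prd A j l) s)
    (h3 : ∀ j l, meromorphicOrderAt (Λ j l) 1 = ((-(g j l) : ℤ) : WithTop ℤ))
    (c : HeightOneSpectrum (𝓞 K) → Circle) (τ : ℝ) {U : Ultrafilter ℝ}
    (hU : (U : Filter ℝ) ≤ 𝓝[>] 0) (w : J → ℝ) :
    (∑ j, w j * M (nm K) U (co A c τ j)) ^ 2 ≤ ∑ j, ∑ l, w j * w l * (g j l : ℝ) := by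
  have hN := sysF K
  have hb : ∀ j, Bd fun v => w j * co A c τ j v := fun j => (bd_co c τ j).const_mul _
  have hs : Bd fun v => ∑ j, w j * co A c τ j v := Bd.sum Finset.univ fun j _ => hb j
  have e1 : M (nm K) U (fun v => ∑ j, w j * co A c τ j v) =
      ∑ j, w j * M (nm K) U (co A c τ j) := by
    rw [M_sum hN hU Finset.univ fun j _ => hb j]
    exact Finset.sum_congr rfl fun j _ => M_const_mul hN hU (bd_co c τ j) _
  have hcs := M_cs hN hU hs (Bd.const 1)
  simp only [mul_one, one_pow] at hcs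
  rw [M_one hN hU, mul_one, e1] at hcs
  refine hcs.trans ?_
  have hbr : ∀ j l, Bd fun v => (prd A j l v).trace.re := by
    intro j l
    refine ⟨Fintype.card (Fin (b j) × Fin (b l)), fun v => (Complex.abs_re_le_norm _).trans ?_⟩
    exact norm_trU (prd_unitary j l) v
  have hbr2 : ∀ j l, Bd fun v => w j * w l * (prd A j l v).trace.re := fun j l =>
    (hbr j l).const_mul _
  have hbr3 : ∀ j, Bd fun v => ∑ l, w j * w l * (prd A j l v).trace.re := fun j =>
    Bd.sum Finset.univ fun l _ => hbr2 j l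
  have e2 : M (nm K) U (fun v => ∑ j, ∑ l, w j * w l * (prd A j l v).trace.re) =
      ∑ j, ∑ l, w j * w l * (g j l : ℝ) := by
    rw [M_sum hN hU Finset.univ fun j _ => hbr3 j]
    refine Finset.sum_congr rfl fun j _ => ?_
    rw [M_sum hN hU Finset.univ fun l _ => hbr2 j l]
    refine Finset.sum_congr rfl fun l _ => ?_
    rw [M_const_mul hN hU (hbr j l), M_re_of_order (prd_unitary j l) (h1 j l) (h2 j l) (h3 j l) hU]
  rw [← e2]
  refine M_mono hN hU hs.sq (Bd.sum Finset.univ fun j _ => hbr3 j) fun v => ?_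
  set a : J → ℂ := fun j => (A j v : Matrix (Fin (b j)) (Fin (b j)) ℂ).trace with ha
  have h4 : ∑ j, w j * co A c τ j v =
      ((∑ j, (w j : ℂ) * a j) * (c v * ((nm K v : ℕ) : ℂ) ^ (-(τ * I : ℂ)))).re := by
    rw [Finset.sum_mul, Complex.re_sum]
    refine Finset.sum_congr rfl fun j _ => ?_
    unfold co
    rw [trace_tA, ← Complex.re_ofReal_mul]
    congr 1
    rw [ha]
    ring
  have h5 : (∑ j, w j * co A c τ j v) ^ 2 ≤ ‖∑ j, (w j : ℂ) * a j‖ ^ 2 := by
    rw [h4, ← sq_abs]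
    refine pow_le_pow_left₀ (abs_nonneg _) ((Complex.abs_re_le_norm _).trans ?_) 2
    rw [norm_mul, norm_mul, norm_cpow_I (nm_pos v), mul_one, Circle.norm_coe, mul_one]
  refine h5.trans (le_of_eq ?_)
  have h6 : ((‖∑ j, (w j : ℂ) * a j‖ ^ 2 : ℝ) : ℂ) =
      ∑ j, ∑ l, ((w j * w l : ℝ) : ℂ) * (prd A j l v).trace := by
    rw [← Complex.normSq_eq_norm_sq, ← Complex.mul_conj, map_sum, Finset.sum_mul_sum]
    refine Finset.sum_congr rfl fun j _ => Finset.sum_congr rfl fun l _ => ?_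
    rw [trace_prd, map_mul, Complex.conj_ofReal, ha]
    push_cast
    ring
  have h7 := congrArg Complex.re h6
  rw [Complex.ofReal_re, Complex.re_sum] at h7
  rw [h7]
  refine Finset.sum_congr rfl fun j _ => ?_
  rw [Complex.re_sum]
  exact Finset.sum_congr rfl fun l _ => Complex.re_ofReal_mul _ _

/-- from the inequality to the number of zeros -/
theorem few {g : J → J → ℤ} (k : J → ℤ)
    (h : ∀ w : J → ℝ, (∑ j, w j * (k j : ℝ)) ^ 2 ≤ ∑ j, ∑ l, w j * w l * (g j l : ℝ))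
    (T : Finset J) (hg : ∀ j ∈ T, ∀ l ∈ T, j ≠ l → k j * k l * g j l ≤ 0) :
    (∀ j, k j ≠ 0 → 0 < g j j) ∧ ∑ j ∈ T, (k j : ℝ) ^ 2 / (g j j : ℝ) ≤ 1 := by
  classical
  have hpos : ∀ j, k j ≠ 0 → 0 < g j j := by
    intro j hj
    have h1 := h fun l => if l = j then 1 else 0
    simp only [ite_mul, one_mul, zero_mul, mul_ite, mul_one, mul_zero,
      Finset.sum_ite_eq', Finset.mem_univ, if_true] at h1
    have h2 : (0 : ℝ) < (k j : ℝ) ^ 2 := by
      have : (k j : ℝ) ≠ 0 := by exact_mod_cast hj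
      positivity
    have h3 : (0 : ℝ) < g j j := by
      refine lt_of_lt_of_le h2 ?_
      simpa using h1
    exact_mod_cast h3
  refine ⟨hpos, ?_⟩
  set w : J → ℝ := fun j => if j ∈ T ∧ k j ≠ 0 then (k j : ℝ) / (g j j : ℝ) else 0 with hw
  set S : ℝ := ∑ j ∈ T, (k j : ℝ) ^ 2 / (g j j : ℝ) with hS
  have hwk : ∀ j ∈ T, w j = (k j : ℝ) / (g j j : ℝ) := by
    intro j hj
    simp only [hw, hj, true_and]
    split_ifs with h1
    · rfl
    · push Not at h1
      rw [h1]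
      simp
  have e1 : ∑ j, w j * (k j : ℝ) = S := by
    rw [hS, ← Finset.sum_subset (Finset.subset_univ T) fun j _ hj => by simp [hw, hj]]
    refine Finset.sum_congr rfl fun j hj => ?_
    rw [hwk j hj]
    ring
  have e2 : ∑ j, ∑ l, w j * w l * (g j l : ℝ) ≤ S := by
    have h1 : ∀ j, ∑ l, w j * w l * (g j l : ℝ) ≤ w j * w j * (g j j : ℝ) := by
      intro j
      rw [← Finset.add_sum_erase Finset.univ _ (Finset.mem_univ j)]
      have h2 : ∑ l ∈ Finset.univ.erase j, w j * w l * (g j l : ℝ) ≤ 0 := by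
        refine Finset.sum_nonpos fun l hl => ?_
        by_cases hj : j ∈ T ∧ k j ≠ 0
        · by_cases hl' : l ∈ T ∧ k l ≠ 0
          · have h3 := hg j hj.1 l hl'.1 (Finset.ne_of_mem_erase hl).symm
            have h4 : ((k j : ℝ) * k l * g j l) ≤ 0 := by exact_mod_cast h3
            have h5 : (0 : ℝ) < g j j := by exact_mod_cast hpos j hj.2
            have h6 : (0 : ℝ) < g l l := by exact_mod_cast hpos l hl'.2
            rw [hwk j hj.1, hwk l hl'.1]
            have h7 : (k j : ℝ) / (g j j : ℝ) * ((k l : ℝ) / (g l l : ℝ)) * (g j l : ℝ) =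
                ((k j : ℝ) * k l * g j l) / ((g j j : ℝ) * (g l l : ℝ)) := by
              field_simp
            rw [h7]
            exact div_nonpos_of_nonpos_of_nonneg h4 (by positivity)
          · simp [hw, hl']
        · simp [hw, hj]
      linarith
    refine (Finset.sum_le_sum fun j _ => h1 j).trans (le_of_eq ?_)
    rw [hS, ← Finset.sum_subset (Finset.subset_univ T) fun j _ hj => by simp [hw, hj]]
    refine Finset.sum_congr rfl fun j hj => ?_
    rw [hwk j hj]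
    by_cases hk : k j = 0
    · rw [hk]
      simp
    · have h2 : (g j j : ℝ) ≠ 0 := by
        have : (0 : ℝ) < g j j := by exact_mod_cast hpos j hk
        exact this.ne'
      field_simp
  have h1 := h w
  rw [e1] at h1
  have h2 : S ^ 2 ≤ S := h1.trans e2
  by_contra hcon
  push Not at hcon
  nlinarith

/-- the number of zeros -/
theorem few_card {g : J → J → ℤ} (k : J → ℤ)
    (h : ∀ w : J → ℝ, (∑ j, w j * (k j : ℝ)) ^ 2 ≤ ∑ j, ∑ l, w j * w l * (g j l : ℝ))
    (m : ℕ) (hm : ∀ j, g j j ≤ m) (hg : ∀ j l, j ≠ l → g j l ≤ 0) :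
    {j | 0 < k j}.ncard ≤ m := by
  classical
  set T : Finset J := Finset.univ.filter fun j => 0 < k j with hT
  have hTm : ∀ j, j ∈ T ↔ 0 < k j := fun j => by simp [hT]
  obtain ⟨h1, h2⟩ := few k h T fun j hj l hl hjl => by
    have h3 := (hTm j).1 hj
    have h4 := (hTm l).1 hl
    exact mul_nonpos_of_nonneg_of_nonpos (mul_nonneg h3.le h4.le) (hg j l hjl)
  have h3 : {j | 0 < k j} = (T : Set J) := by
    ext j
    rw [Set.mem_ofPred_eq, Finset.mem_coe, hTm]
  rw [h3, Set.ncard_coe_finset]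
  rcases Nat.eq_zero_or_pos T.card with h0 | h0
  · omega
  · obtain ⟨j₀, hj₀⟩ := Finset.card_pos.1 h0
    have hm0 : 0 < m := by
      have h4 := h1 j₀ ((hTm j₀).1 hj₀).ne'
      have h5 := hm j₀
      omega
    have hm' : (0 : ℝ) < m := by exact_mod_cast hm0
    have h4 : ∑ j ∈ T, (1 : ℝ) / m ≤ ∑ j ∈ T, (k j : ℝ) ^ 2 / (g j j : ℝ) := by
      refine Finset.sum_le_sum fun j hj => ?_
      have h5 := (hTm j).1 hj
      have h6 : (0 : ℝ) < g j j := by exact_mod_cast h1 j h5.ne'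
      have h7 : (g j j : ℝ) ≤ m := by exact_mod_cast hm j
      have h8 : (1 : ℝ) ≤ (k j : ℝ) := by exact_mod_cast h5
      have h9 : (1 : ℝ) ≤ (k j : ℝ) ^ 2 := by nlinarith
      exact div_le_div₀ (by positivity) h9 h6 h7
    rw [Finset.sum_const, nsmul_eq_mul, mul_one_div] at h4
    have h5 : (T.card : ℝ) / m ≤ 1 := h4.trans h2
    rw [div_le_one hm'] at h5
    exact_mod_cast h5

end

end Pool.Agent.TH553.CZ
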