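import Pool.Agent.TH553.CZ.Gen

set_option autoImplicit false
set_option linter.unusedSectionVars false

/-!
# Twists of families of unitary matrices with known second and fourth moments
-/

namespace Pool.Agent.TH553.CZ

open Complex Filter Topology ComplexConjugate NumberField IsDedekindDomain MeasureTheory
  Pool.Agent.W540.BE Pool.Agent.TH553.RS Pool.Agent.TH553.ST Pool.Agent.H341R2
open scoped Kronecker

variable {K : Type} [Field K] [NumberField K] {b : ℕ}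
  {A : HeightOneSpectrum (𝓞 K) → Matrix.unitaryGroup (Fin b) ℂ}

/-- the twist -/
noncomputable def tA (A : HeightOneSpectrum (𝓞 K) → Matrix.unitaryGroup (Fin b) ℂ)
    (c : HeightOneSpectrum (𝓞 K) → Circle) (v : HeightOneSpectrum (𝓞 K)) :
    Matrix (Fin b) (Fin b) ℂ := (c v : ℂ) • (A v : Matrix (Fin b) (Fin b) ℂ)

theorem tA_unitary (c : HeightOneSpectrum (𝓞 K) → Circle) (v : HeightOneSpectrum (𝓞 K)) :
    tA A c v ∈ Matrix.unitaryGroup (Fin b) ℂ := by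
  unfold tA
  rw [Matrix.mem_unitaryGroup_iff, Matrix.star_eq_conjTranspose, Matrix.conjTranspose_smul,
    Matrix.smul_mul, Matrix.mul_smul, smul_smul, ← Matrix.star_eq_conjTranspose,
    Matrix.mem_unitaryGroup_iff.1 (A v).2]
  have h4 : (c v : ℂ) * star (c v : ℂ) = 1 := by
    change (c v : ℂ) * conj (c v : ℂ) = 1
    rw [Complex.mul_conj, Complex.normSq_eq_norm_sq, Circle.norm_coe]
    simp
  rw [h4, one_smul]

theorem trace_tA (c : HeightOneSpectrum (𝓞 K) → Circle) (v : HeightOneSpectrum (𝓞 K)) :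
    (tA A c v).trace = c v * (A v : Matrix (Fin b) (Fin b) ℂ).trace := by
  unfold tA
  rw [Matrix.trace_smul, smul_eq_mul]

/-- the absolute value of the trace -/
noncomputable def at' (A : HeightOneSpectrum (𝓞 K) → Matrix.unitaryGroup (Fin b) ℂ)
    (v : HeightOneSpectrum (𝓞 K)) : ℝ := ‖(A v : Matrix (Fin b) (Fin b) ℂ).trace‖

theorem at_le (v : HeightOneSpectrum (𝓞 K)) : at' A v ≤ b := by
  have := norm_trU (B := fun v => (A v : Matrix (Fin b) (Fin b) ℂ)) (fun v => (A v).2) v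
  rwa [Fintype.card_fin] at this

theorem size_tA {c : HeightOneSpectrum (𝓞 K) → Circle} {τ a : ℝ}
    (ha : ∀ U : Ultrafilter ℝ, (U : Filter ℝ) ≤ 𝓝[>] 0 → M (nm K) U (at' A) ≤ a) {η : ℝ}
    (hη : 0 < η) : ∀ᶠ ε : ℝ in 𝓝[>] 0, |sU (tA A c) τ ε| ≤ a + η := by
  refine eventually_of_ultra fun U hU => ?_
  have hN := sysF K
  set φ : HeightOneSpectrum (𝓞 K) → ℝ := fun v =>
    ((tA A c v).trace * ((nm K v : ℕ) : ℂ) ^ (-(τ * I : ℂ))).re with hφ
  have hle : ∀ v, |φ v| ≤ at' A v := by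
    intro v
    refine (Complex.abs_re_le_norm _).trans ?_
    rw [norm_mul, norm_cpow_I (nm_pos v), mul_one, trace_tA, norm_mul, Circle.norm_coe, one_mul]
    exact le_refl _
  have hb : Bd (at' A) := ⟨b, fun v => by
    rw [abs_of_nonneg (show 0 ≤ at' A v from norm_nonneg _)]; exact at_le v⟩
  have hbφ : Bd φ := ⟨b, fun v => (hle v).trans (at_le v)⟩
  have h1 : |M (nm K) U φ| ≤ a := by
    refine le_trans ?_ (ha U hU)
    rw [abs_le]
    constructor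
    · rw [← M_neg hN hU hb]
      exact M_mono hN hU hb.neg hbφ fun v => (abs_le.1 (hle v)).1
    · exact M_mono hN hU hbφ hb fun v => (abs_le.1 (hle v)).2
  have h5 := M_lim hN hU hbφ
  have h6 := h5.sub ((size_LU (tA_unitary (A := A) c) τ).2.mono_left hU)
  rw [sub_zero] at h6
  have h7 : Tendsto (sU (tA A c) τ) U (𝓝 (M (nm K) U φ)) := by
    refine h6.congr fun ε => ?_
    rw [hφ]
    ring
  filter_upwards [h7.abs.eventually_lt_const (lt_of_le_of_lt h1 (lt_add_of_pos_right a hη))]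
    with ε h2
  exact h2.le

theorem order_tA {c : HeightOneSpectrum (𝓞 K) → Circle} {τ a : ℝ}
    (ha : ∀ U : Ultrafilter ℝ, (U : Filter ℝ) ≤ 𝓝[>] 0 → M (nm K) U (at' A) ≤ a)
    {Λ : ℂ → ℂ} (h1 : MeromorphicAt Λ (1 + τ * I))
    (h2 : ∀ᶠ s in 𝓝 ((1 : ℂ) + τ * I), (1 : ℝ) < s.re → Λ s = LU (tA A c) s) :
    ∃ k : ℤ, meromorphicOrderAt Λ (1 + τ * I) = k ∧ |(k : ℝ)| ≤ a := by
  obtain ⟨m, h3, h4⟩ := order_LU (tA_unitary (A := A) c) h1 h2
  refine ⟨m, h3, ?_⟩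
  refine le_of_forall_pos_le_add fun η hη => ?_
  have h5 := le_of_tendsto h4.abs (size_tA (A := A) (c := c) (τ := τ) ha hη)
  rwa [abs_neg] at h5

/-- the mean values from the orders -/
theorem mean_bnd {m m' : ℤ} {Λ₂ Λ₄ : ℂ → ℂ} (h1 : MeromorphicAt Λ₂ 1)
    (h2 : ∀ᶠ s in 𝓝 (1 : ℂ), (1 : ℝ) < s.re →
      Λ₂ s = LU (fun v => sq2 (A v : Matrix (Fin b) (Fin b) ℂ)) s)
    (h3 : meromorphicOrderAt Λ₂ 1 = ((-m : ℤ) : WithTop ℤ)) (h4 : MeromorphicAt Λ₄ 1)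
    (h5 : ∀ᶠ s in 𝓝 (1 : ℂ), (1 : ℝ) < s.re →
      Λ₄ s = LU (fun v => sq2 (A v : Matrix (Fin b) (Fin b) ℂ) ⊗ₖ
        sq2 (A v : Matrix (Fin b) (Fin b) ℂ)) s)
    (h6 : meromorphicOrderAt Λ₄ 1 = ((-m' : ℤ) : WithTop ℤ)) :
    0 ≤ m ∧ m ^ 2 ≤ m' ∧ ∀ U : Ultrafilter ℝ, (U : Filter ℝ) ≤ 𝓝[>] 0 →
      M (nm K) U (at' A) ≤ bnd b m m' := by
  have key : ∀ U : Ultrafilter ℝ, (U : Filter ℝ) ≤ 𝓝[>] 0 → 0 ≤ m ∧ m ^ 2 ≤ m' ∧
      M (nm K) U (at' A) ≤ bnd b m m' := by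
    intro U hU
    have e2 := M_of_order (fun v => sq2_unitary (A v).2) (φ := fun v => at' A v ^ 2)
      (fun v => trace_sq2 _) h1 h2 h3 hU
    have e4 := M_of_order (fun v => sq4_unitary (A v).2) (φ := fun v => (at' A v ^ 2) ^ 2)
      (fun v => trace_sq4 _) h4 h5 h6 hU
    obtain ⟨h7, h8, h9, h10⟩ := mean_le (X := at' A) (b := b) (fun v => norm_nonneg _) at_le hU e2 e4
    refine ⟨h7, h8, ?_⟩
    rcases h7.eq_or_lt with h11 | h11
    · rw [← h11] at h9 ⊢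
      unfold bnd
      simp only [Int.cast_zero, Real.sqrt_zero, mul_zero, zero_mul, div_zero, sub_zero] at h9 ⊢
      exact h9
    · exact h10 h11
  obtain ⟨U, hU⟩ : ∃ U : Ultrafilter ℝ, (U : Filter ℝ) ≤ 𝓝[>] 0 :=
    ⟨Ultrafilter.of (𝓝[>] 0), Ultrafilter.of_le _⟩
  exact ⟨(key U hU).1, (key U hU).2.1, fun U hU => (key U hU).2.2⟩

theorem bnd_le (m m' : ℤ) (h : m ^ 2 ≤ m') : bnd b m m' ≤ √m := by
  unfold bnd
  have h1 : (m : ℝ) ^ 2 ≤ m' := by exact_mod_cast h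
  have h2 : (0 : ℝ) ≤ √m := Real.sqrt_nonneg _
  have h3 : 0 ≤ ((m' : ℝ) - (m : ℝ) ^ 2) / (2 * √m * (b + √m) ^ 2) :=
    div_nonneg (by linarith) (by positivity)
  linarith

theorem bnd_lt {m m' : ℤ} (h0 : 0 < m) (h : m ^ 2 < m') : bnd b m m' < √m := by
  unfold bnd
  have h1 : (m : ℝ) ^ 2 < m' := by exact_mod_cast h
  have h4 : (0 : ℝ) < m := by exact_mod_cast h0
  have h2 : (0 : ℝ) < √m := Real.sqrt_pos.2 h4
  have h3 : 0 < ((m' : ℝ) - (m : ℝ) ^ 2) / (2 * √m * (b + √m) ^ 2) :=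
    div_pos (by linarith) (by positivity)
  linarith

end Pool.Agent.TH553.CZ
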