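import Pool.Agent.TH553.CZ.Core

set_option autoImplicit false
set_option linter.unusedSectionVars false

/-!
# Euler products of families of unitary matrices and the fourth moment
-/

namespace Pool.Agent.TH553.CZ

open Complex Filter Topology ComplexConjugate NumberField IsDedekindDomain MeasureTheory
  Pool.Agent.W540.BE Pool.Agent.TH553.RS Pool.Agent.TH553.ST Pool.Agent.H341R2
open scoped Kronecker

section

variable {K : Type} [Field K] [NumberField K] {κ : Type} [Fintype κ] [DecidableEq κ]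

/-- the Euler product -/
noncomputable def LU (B : HeightOneSpectrum (𝓞 K) → Matrix κ κ ℂ) (s : ℂ) : ℂ :=
  ∏' v, (Matrix.det (1 - (((nm K v : ℕ) : ℂ) ^ (-s)) • B v))⁻¹

/-- the size -/
noncomputable def sU (B : HeightOneSpectrum (𝓞 K) → Matrix κ κ ℂ) (τ ε : ℝ) : ℝ :=
  Real.log ‖LU B (1 + τ * I + ε)‖ / Real.log (1 / ε)

variable {B : HeightOneSpectrum (𝓞 K) → Matrix κ κ ℂ}

theorem exists_alU (hB : ∀ v, B v ∈ Matrix.unitaryGroup κ ℂ) :
    ∃ α : HeightOneSpectrum (𝓞 K) → Fin (Fintype.card κ) → ℂ,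
      (∀ v j, ‖α v j‖ = 1) ∧ (∀ v, ∑ j, α v j = (B v).trace) ∧
      ∀ v (c : ℂ), Matrix.det (1 - c • B v) = ∏ j, (1 - α v j * c) := by
  choose α h1 h2 h3 using fun v => exists_eig (hB v)
  exact ⟨α, h1, h2, h3⟩

theorem norm_trU (hB : ∀ v, B v ∈ Matrix.unitaryGroup κ ℂ) (v : HeightOneSpectrum (𝓞 K)) :
    ‖(B v).trace‖ ≤ Fintype.card κ := by
  obtain ⟨α, h1, h2, -⟩ := exists_alU hB
  rw [← h2]
  refine (norm_sum_le _ _).trans ?_
  simp [h1]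

theorem size_LU (hB : ∀ v, B v ∈ Matrix.unitaryGroup κ ℂ) (τ : ℝ) :
    (∀ᶠ ε : ℝ in 𝓝[>] 0, LU B (1 + τ * I + ε) ≠ 0) ∧
    Tendsto (fun ε : ℝ => qt (nm K) (fun v =>
      ((B v).trace * ((nm K v : ℕ) : ℂ) ^ (-(τ * I : ℂ))).re) ε - sU B τ ε) (𝓝[>] 0) (𝓝 0) := by
  obtain ⟨α, h1, h2, h3⟩ := exists_alU hB
  set Q : HeightOneSpectrum (𝓞 K) → Polynomial ℂ := fun v =>
    ∏ j, (1 - Polynomial.C (α v j) * Polynomial.X) with hQ
  have hBe : ∀ v z, (Q v).eval z = ∏ j, (1 - α v j * z) := by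
    intro v z
    rw [hQ]
    simp [Polynomial.eval_prod]
  exact size_unit (sysF K) α (Filter.Eventually.of_forall h1)
    (t := fun v => (B v).trace) (C := (Fintype.card κ : ℝ)) (norm_trU hB)
    (Filter.Eventually.of_forall h2) τ Q (Filter.Eventually.of_forall hBe)
    (fun v => by
      rw [hBe, Finset.prod_ne_zero_iff]
      intro j _ h4
      have h5 : ‖α v j * ((nm K v : ℕ) : ℂ) ^ (-(1 + τ * I : ℂ))‖ = 1 := by
        have : α v j * ((nm K v : ℕ) : ℂ) ^ (-(1 + τ * I : ℂ)) = 1 := by linear_combination -h4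
        rw [this, norm_one]
      rw [norm_mul, h1, one_mul] at h5
      have h6 := cpow_le_half normSys v (s := 1 + τ * I) (by simp)
      linarith) (LU B)
    (fun s _ => by
      unfold LU
      refine tprod_congr fun v => ?_
      rw [h3, hBe])

theorem order_LU (hB : ∀ v, B v ∈ Matrix.unitaryGroup κ ℂ) {τ : ℝ} {Λ : ℂ → ℂ}
    (h1 : MeromorphicAt Λ (1 + τ * I))
    (h2 : ∀ᶠ s in 𝓝 ((1 : ℂ) + τ * I), (1 : ℝ) < s.re → Λ s = LU B s) :
    ∃ m : ℤ, meromorphicOrderAt Λ (1 + τ * I) = m ∧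
      Tendsto (sU B τ) (𝓝[>] 0) (𝓝 (-(m : ℝ))) :=
  order_unit (size_LU hB τ).1 h1 h2

theorem avg_LU (hB : ∀ v, B v ∈ Matrix.unitaryGroup κ ℂ)
    (h : ∀ τ : ℝ, ∃ Λ : ℂ → ℂ, MeromorphicAt Λ (1 + τ * I) ∧
      (∀ᶠ s in 𝓝 ((1 : ℂ) + τ * I), (1 : ℝ) < s.re → Λ s = LU B s) ∧
      meromorphicOrderAt Λ (1 + τ * I) = ((0 : ℤ) : WithTop ℤ)) :
    Tendsto (mn fun v => (B v).trace) atTop (𝓝 0) := by
  obtain ⟨α, h1, h2, h3⟩ := exists_alU hB
  have h4 := taub h1 (L := LU B) (fun s _ => by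
    unfold LU
    exact tprod_congr fun v => by rw [h3]) (fun τ => by
    obtain ⟨Λ, h5, h6, h7⟩ := h τ
    obtain ⟨g, h10, h11, h12⟩ := (meromorphicOrderAt_eq_int_iff h5).1 h7
    refine ⟨g, h10, h11, ?_⟩
    rw [eventually_nhdsWithin_iff] at h12
    filter_upwards [h12, h6] with s h13 h14 h15
    have hne : s ≠ 1 + τ * I := by
      intro h
      rw [h] at h15
      simp at h15
    have h16 := h13 hne
    rw [zpow_zero, one_smul] at h16
    rw [← h16, h14 h15])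
  refine h4.congr fun N => ?_
  congr 1
  funext v
  exact h2 v

/-- the mean value given by an order at `1` -/
theorem M_of_order (hB : ∀ v, B v ∈ Matrix.unitaryGroup κ ℂ) {φ : HeightOneSpectrum (𝓞 K) → ℝ}
    (hφ : ∀ v, (B v).trace = φ v) {Λ : ℂ → ℂ} {m : ℤ}
    (h1 : MeromorphicAt Λ 1)
    (h2 : ∀ᶠ s in 𝓝 (1 : ℂ), (1 : ℝ) < s.re → Λ s = LU B s)
    (h3 : meromorphicOrderAt Λ 1 = ((-m : ℤ) : WithTop ℤ))
    {U : Ultrafilter ℝ} (hU : (U : Filter ℝ) ≤ 𝓝[>] 0) : M (nm K) U φ = m := by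
  have e : (1 : ℂ) = 1 + ((0 : ℝ) : ℂ) * I := by simp
  rw [e] at h1 h2 h3
  obtain ⟨m', h4, h5⟩ := order_LU hB h1 h2
  rw [h4] at h3
  have h6 : m' = -m := by exact_mod_cast h3
  subst h6
  have h7 := h5.add (size_LU hB 0).2
  refine M_of_tendsto hU ?_
  have h8 : -(((-m : ℤ)) : ℝ) + 0 = m := by push_cast; ring
  rw [h8] at h7
  refine h7.congr fun ε => ?_
  have h9 : (fun v => ((B v).trace * ((nm K v : ℕ) : ℂ) ^ (-(((0 : ℝ) : ℂ) * I : ℂ))).re) = φ := by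
    funext v
    rw [hφ]
    simp
  rw [h9]
  ring

end

section

variable {K : Type} [Field K] [NumberField K] {b : ℕ}
  {A : HeightOneSpectrum (𝓞 K) → Matrix.unitaryGroup (Fin b) ℂ}

/-- the square -/
noncomputable def sq2 (A : Matrix (Fin b) (Fin b) ℂ) : Matrix (Fin b × Fin b) (Fin b × Fin b) ℂ :=
  A ⊗ₖ A.map conj

theorem conj_unitary {X : Matrix (Fin b) (Fin b) ℂ} (h : X ∈ Matrix.unitaryGroup (Fin b) ℂ) :
    X.map conj ∈ Matrix.unitaryGroup (Fin b) ℂ := (cj (MonoidHom.id _) ⟨X, h⟩).2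

theorem sq2_unitary {X : Matrix (Fin b) (Fin b) ℂ} (h : X ∈ Matrix.unitaryGroup (Fin b) ℂ) :
    sq2 X ∈ Matrix.unitaryGroup (Fin b × Fin b) ℂ :=
  Matrix.kronecker_mem_unitary h (conj_unitary h)

theorem trace_sq2 (X : Matrix (Fin b) (Fin b) ℂ) : (sq2 X).trace = ((‖X.trace‖ ^ 2 : ℝ) : ℂ) := by
  unfold sq2
  rw [Matrix.trace_kronecker]
  have : (X.map conj).trace = conj X.trace := by
    unfold Matrix.trace
    rw [map_sum]
    rfl
  rw [this, Complex.mul_conj, Complex.normSq_eq_norm_sq]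

theorem sq4_unitary {X : Matrix (Fin b) (Fin b) ℂ} (h : X ∈ Matrix.unitaryGroup (Fin b) ℂ) :
    sq2 X ⊗ₖ sq2 X ∈ Matrix.unitaryGroup ((Fin b × Fin b) × (Fin b × Fin b)) ℂ :=
  Matrix.kronecker_mem_unitary (sq2_unitary h) (sq2_unitary h)

theorem trace_sq4 (X : Matrix (Fin b) (Fin b) ℂ) :
    (sq2 X ⊗ₖ sq2 X).trace = (((‖X.trace‖ ^ 2) ^ 2 : ℝ) : ℂ) := by
  rw [Matrix.trace_kronecker, trace_sq2]
  push_cast
  ring

/-- the upper bound for the mean value of the absolute value -/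
noncomputable def bnd (b : ℕ) (m m' : ℤ) : ℝ :=
  √m - ((m' : ℝ) - (m : ℝ) ^ 2) / (2 * √m * (b + √m) ^ 2)

theorem mean_le {X : HeightOneSpectrum (𝓞 K) → ℝ} (hX0 : ∀ v, 0 ≤ X v) (hXb : ∀ v, X v ≤ b)
    {U : Ultrafilter ℝ} (hU : (U : Filter ℝ) ≤ 𝓝[>] 0) {m m' : ℤ}
    (h2 : M (nm K) U (fun v => X v ^ 2) = m) (h4 : M (nm K) U (fun v => (X v ^ 2) ^ 2) = m') :
    0 ≤ m ∧ m ^ 2 ≤ m' ∧ M (nm K) U X ≤ √m ∧ (0 < m → M (nm K) U X ≤ bnd b m m') := by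
  have hN := sysF K
  have hb : Bd X := ⟨b, fun v => by rw [abs_of_nonneg (hX0 v)]; exact hXb v⟩
  have hb2 : Bd fun v => X v ^ 2 := hb.sq
  have hb4 : Bd fun v => (X v ^ 2) ^ 2 := hb2.sq
  have hm0 : (0 : ℝ) ≤ m := by
    rw [← h2]
    exact M_nonneg hN hU hb2 fun v => sq_nonneg _
  have hMX : 0 ≤ M (nm K) U X := M_nonneg hN hU hb hX0
  have hcs : (M (nm K) U X) ^ 2 ≤ m := by
    have h := M_cs hN hU hb (Bd.const 1)
    simp only [mul_one, one_pow] at h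
    rw [h2, M_one hN hU, mul_one] at h
    exact h
  have hcs2 : (m : ℝ) ^ 2 ≤ m' := by
    have h := M_cs hN hU hb2 (Bd.const 1)
    simp only [mul_one, one_pow] at h
    rw [h2, h4, M_one hN hU, mul_one] at h
    exact h
  have hr : M (nm K) U X ≤ √m := Real.le_sqrt_of_sq_le hcs
  refine ⟨by exact_mod_cast hm0, by exact_mod_cast hcs2, hr, fun hm => ?_⟩
  have hm1 : (0 : ℝ) < m := by exact_mod_cast hm
  set r : ℝ := √m with hrdef
  have hr0 : 0 < r := Real.sqrt_pos.2 hm1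
  have hrm : r ^ 2 = m := Real.sq_sqrt hm0
  -- the inequality `(X² - m)² ≤ (b + r)² (X - r)²`
  have hpt : ∀ v, (X v ^ 2) ^ 2 + (-2 * m) * X v ^ 2 + (m : ℝ) ^ 2 ≤
      (b + r) ^ 2 * (X v ^ 2 + (-2 * r) * X v + r ^ 2) := by
    intro v
    have e1 : (X v ^ 2) ^ 2 + (-2 * m) * X v ^ 2 + (m : ℝ) ^ 2 = (X v + r) ^ 2 * (X v - r) ^ 2 := by
      rw [← hrm]
      ring
    have e2 : X v ^ 2 + (-2 * r) * X v + r ^ 2 = (X v - r) ^ 2 := by ring
    rw [e1, e2]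
    refine mul_le_mul_of_nonneg_right ?_ (sq_nonneg _)
    have := hX0 v
    exact pow_le_pow_left₀ (by positivity) (by linarith [hXb v]) 2
  have hbl : Bd fun v => (X v ^ 2) ^ 2 + (-2 * m) * X v ^ 2 + (m : ℝ) ^ 2 :=
    (hb4.add (hb2.const_mul _)).add (Bd.const _)
  have hbr' : Bd fun v => X v ^ 2 + (-2 * r) * X v + r ^ 2 :=
    (hb2.add (hb.const_mul _)).add (Bd.const _)
  have hbr : Bd fun v => (b + r) ^ 2 * (X v ^ 2 + (-2 * r) * X v + r ^ 2) := hbr'.const_mul _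
  have h5 := M_mono hN hU hbl hbr hpt
  rw [M_add hN hU (hb4.add (hb2.const_mul _)) (Bd.const _),
    M_add hN hU hb4 (hb2.const_mul _), M_const_mul hN hU hb2, M_const hN hU, h2, h4,
    M_const_mul hN hU hbr', M_add hN hU (hb2.add (hb.const_mul _)) (Bd.const _),
    M_add hN hU hb2 (hb.const_mul _), M_const_mul hN hU hb, M_const hN hU, h2, hrm] at h5
  set Y := M (nm K) U X with hY
  have h6 : (m' : ℝ) - (m : ℝ) ^ 2 ≤ (b + r) ^ 2 * (2 * r * (r - Y)) := by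
    have e1 : (m' : ℝ) + -2 * m * m + (m : ℝ) ^ 2 = m' - (m : ℝ) ^ 2 := by ring
    have e2 : (m : ℝ) + -2 * r * Y + m = 2 * r * (r - Y) := by
      rw [← hrm]
      ring
    rw [e1, e2] at h5
    exact h5
  have hbr0 : (0 : ℝ) < b + r := by positivity
  have h7 : ((m' : ℝ) - (m : ℝ) ^ 2) / (2 * r * (b + r) ^ 2) ≤ r - Y := by
    rw [div_le_iff₀ (by positivity)]
    calc (m' : ℝ) - (m : ℝ) ^ 2 ≤ (b + r) ^ 2 * (2 * r * (r - Y)) := h6
      _ = _ := by ring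
  unfold bnd
  rw [← hrdef]
  linarith

end

end Pool.Agent.TH553.CZ
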