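import Pool.Agent.TH553.CZ.Core

set_option autoImplicit false
set_option linter.unusedSectionVars false

/-!
# Equidistribution up to automorphisms
-/

namespace Pool.Agent.TH553.CZ

open Complex Filter Topology ComplexConjugate NumberField IsDedekindDomain MeasureTheory
  Pool.Agent.W540.BE Pool.Agent.TH553.RS Pool.Agent.TH553.ST

/-- the inequality of Cauchy and Schwarz for coefficients with sum zero -/
theorem cs_zero {ι : Type} [Fintype ι] [Nonempty ι] (a : ι → ℝ) (z : ι → ℂ) (ha : ∑ i, a i = 0) :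
    ‖∑ i, (a i : ℂ) * z i‖ ^ 2 ≤
      (∑ i, a i ^ 2) * (∑ i, ‖z i‖ ^ 2 - ‖∑ i, z i‖ ^ 2 / Fintype.card ι) := by
  set r : ℝ := (Fintype.card ι : ℝ) with hr
  have hr0 : 0 < r := by
    rw [hr]
    exact_mod_cast Fintype.card_pos
  set w : ℂ := (∑ i, z i) / r with hw
  have hrc : (r : ℂ) ≠ 0 := by exact_mod_cast hr0.ne'
  have h1 : ∑ i, (a i : ℂ) * z i = ∑ i, (a i : ℂ) * (z i - w) := by
    have h2 : ∑ i, (a i : ℂ) * w = 0 := by
      rw [← Finset.sum_mul, ← Complex.ofReal_sum, ha, Complex.ofReal_zero, zero_mul]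
    simp only [mul_sub]
    rw [Finset.sum_sub_distrib, h2, sub_zero]
  have h3 : ∑ i, ‖z i - w‖ ^ 2 = ∑ i, ‖z i‖ ^ 2 - ‖∑ i, z i‖ ^ 2 / r := by
    have e : ∀ i, ‖z i - w‖ ^ 2 = ‖z i‖ ^ 2 + ‖w‖ ^ 2 - 2 * (z i * conj w).re := by
      intro i
      rw [← Complex.normSq_eq_norm_sq, Complex.normSq_sub, Complex.normSq_eq_norm_sq,
        Complex.normSq_eq_norm_sq]
    simp only [e]
    rw [Finset.sum_sub_distrib, Finset.sum_add_distrib, Finset.sum_const, Finset.card_univ,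
      nsmul_eq_mul, ← Finset.mul_sum, ← Complex.re_sum, ← Finset.sum_mul, ← hr]
    have h4 : ∑ i, z i = r * w := by
      rw [hw]
      field_simp
    rw [h4, norm_mul, Complex.norm_real, Real.norm_eq_abs, abs_of_pos hr0, mul_assoc,
      Complex.mul_conj, Complex.normSq_eq_norm_sq, Complex.re_ofReal_mul, Complex.ofReal_re]
    field_simp
    ring
  rw [h1, ← h3]
  have h5 : ‖∑ i, (a i : ℂ) * (z i - w)‖ ≤ ∑ i, |a i| * ‖z i - w‖ := by
    refine (norm_sum_le _ _).trans (Finset.sum_le_sum fun i _ => ?_)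
    rw [norm_mul, Complex.norm_real, Real.norm_eq_abs]
  have h6 : (∑ i, |a i| * ‖z i - w‖) ^ 2 ≤ (∑ i, |a i| ^ 2) * ∑ i, ‖z i - w‖ ^ 2 :=
    Finset.sum_mul_sq_le_sq_mul_sq _ _ _
  simp only [sq_abs] at h6
  exact (pow_le_pow_left₀ (norm_nonneg _) h5 2).trans h6

section

variable {G : Type} [Group G] [TopologicalSpace G] {n : ℕ} {ι : Type} [Fintype ι]
  {π : ι → G →* Matrix.unitaryGroup (Fin n) ℂ}

/-- the function `D` -/
noncomputable def DD (π : ι → G →* Matrix.unitaryGroup (Fin n) ℂ) (g : G) : ℝ :=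
  √(∑ i, ‖chi (π i) g‖ ^ 2 - ‖∑ i, chi (π i) g‖ ^ 2 / Fintype.card ι)

theorem DD_arg_nonneg [Nonempty ι] (g : G) :
    0 ≤ ∑ i, ‖chi (π i) g‖ ^ 2 - ‖∑ i, chi (π i) g‖ ^ 2 / Fintype.card ι := by
  have hr0 : (0 : ℝ) < Fintype.card ι := by exact_mod_cast Fintype.card_pos
  have h1 : ‖∑ i, chi (π i) g‖ ^ 2 ≤ (Fintype.card ι : ℝ) * ∑ i, ‖chi (π i) g‖ ^ 2 := by
    have h2 : ‖∑ i, chi (π i) g‖ ≤ ∑ i, 1 * ‖chi (π i) g‖ := by
      simp only [one_mul]
      exact norm_sum_le _ _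
    have h3 : (∑ i, 1 * ‖chi (π i) g‖) ^ 2 ≤ (∑ _i : ι, (1 : ℝ) ^ 2) * ∑ i, ‖chi (π i) g‖ ^ 2 :=
      Finset.sum_mul_sq_le_sq_mul_sq _ _ _
    refine (pow_le_pow_left₀ (norm_nonneg _) h2 2).trans (h3.trans (le_of_eq ?_))
    simp
  rw [sub_nonneg, div_le_iff₀ hr0, mul_comm]
  exact h1

theorem DD_sq [Nonempty ι] (g : G) : DD π g ^ 2 =
    ∑ i, ‖chi (π i) g‖ ^ 2 - ‖∑ i, chi (π i) g‖ ^ 2 / Fintype.card ι :=
  Real.sq_sqrt (DD_arg_nonneg g)

theorem DD_nonneg (g : G) : 0 ≤ DD π g := Real.sqrt_nonneg _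

theorem cont_DD (hc : ∀ i, Continuous (π i)) : Continuous (DD π) := by
  unfold DD
  refine Real.continuous_sqrt.comp (Continuous.sub ?_ (Continuous.div_const ?_ _))
  · exact continuous_finsetSum _ fun i _ => (cont_chi (hc i)).norm.pow 2
  · exact (continuous_finsetSum _ fun i _ => cont_chi (hc i)).norm.pow 2

theorem DD_cls (g h : G) : DD π (h * g * h⁻¹) = DD π g := by
  unfold DD
  simp only [chi_cls]

theorem DD_one [Nonempty ι] : DD π 1 = 0 := by
  have hr0 : (Fintype.card ι : ℝ) ≠ 0 := by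
    have : (0 : ℝ) < Fintype.card ι := by exact_mod_cast Fintype.card_pos
    exact this.ne'
  have h6 : ∀ i, chi (π i) 1 = n := by
    intro i
    unfold chi
    rw [map_one]
    simp
  unfold DD
  simp only [h6]
  rw [Finset.sum_const, Finset.sum_const, Finset.card_univ, nsmul_eq_mul, nsmul_eq_mul, norm_mul,
    Complex.norm_natCast, Complex.norm_natCast]
  have : (Fintype.card ι : ℝ) * (n : ℝ) ^ 2 -
      ((Fintype.card ι : ℝ) * (n : ℝ)) ^ 2 / Fintype.card ι = 0 := by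
    field_simp
    ring
  rw [this, Real.sqrt_zero]

variable [IsTopologicalGroup G] [CompactSpace G] [MeasurableSpace G] [BorelSpace G]
  {μ : Measure G} [IsProbabilityMeasure μ] [μ.IsHaarMeasure]

theorem int_DD_sq [Nonempty ι] (hc : ∀ i, Continuous (π i)) (hs : ∀ i, Schur (π i)) (hn : n ≠ 0)
    (hne : ∀ i j, i ≠ j → chi (π i) ≠ chi (π j)) :
    ∫ g, DD π g ^ 2 ∂μ = Fintype.card ι - 1 := by
  have hr0 : (Fintype.card ι : ℝ) ≠ 0 := by
    have : (0 : ℝ) < Fintype.card ι := by exact_mod_cast Fintype.card_pos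
    exact this.ne'
  simp only [DD_sq]
  have e : ∀ g, ‖∑ i, chi (π i) g‖ ^ 2 = ∑ i, ∑ j, (chi (π i) g * conj (chi (π j) g)).re := by
    intro g
    rw [← Complex.normSq_eq_norm_sq]
    have h1 : ((Complex.normSq (∑ i, chi (π i) g) : ℝ) : ℂ) =
        ∑ i, ∑ j, chi (π i) g * conj (chi (π j) g) := by
      rw [← Complex.mul_conj, map_sum, Finset.sum_mul_sum]
    have h2 := congrArg Complex.re h1
    rw [Complex.ofReal_re, Complex.re_sum] at h2
    rw [h2]
    exact Finset.sum_congr rfl fun i _ => Complex.re_sum _ _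
  have c1 : ∀ i, Continuous fun g => ‖chi (π i) g‖ ^ 2 := fun i => (cont_chi (hc i)).norm.pow 2
  have c2 : ∀ i j, Continuous fun g => chi (π i) g * conj (chi (π j) g) := fun i j =>
    (cont_chi (hc i)).mul (Complex.continuous_conj.comp (cont_chi (hc j)))
  have c3 : ∀ i j, Continuous fun g => (chi (π i) g * conj (chi (π j) g)).re := fun i j =>
    Complex.continuous_re.comp (c2 i j)
  have i1 : Integrable (fun g => ∑ i, ‖chi (π i) g‖ ^ 2) μ :=
    intg (continuous_finsetSum _ fun i _ => c1 i)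
  have i2 : Integrable (fun g => ‖∑ i, chi (π i) g‖ ^ 2 / (Fintype.card ι : ℝ)) μ :=
    intg (((continuous_finsetSum _ fun i _ => cont_chi (hc i)).norm.pow 2).div_const _)
  rw [integral_sub i1 i2, integral_finsetSum _ fun i _ => intg (c1 i), integral_div]
  have h1 : ∑ i, ∫ g, ‖chi (π i) g‖ ^ 2 ∂μ = Fintype.card ι := by
    rw [Finset.sum_congr rfl fun i _ => int_sq (μ := μ) (hc i) (hs i) hn]
    simp
  have h2 : ∫ g, ‖∑ i, chi (π i) g‖ ^ 2 ∂μ = Fintype.card ι := by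
    simp only [e]
    rw [integral_finsetSum _ fun i _ => intg (continuous_finsetSum _ fun j _ => c3 i j)]
    have h3 : ∀ i, ∫ g, ∑ j, (chi (π i) g * conj (chi (π j) g)).re ∂μ = 1 := by
      intro i
      rw [integral_finsetSum _ fun j _ => intg (c3 i j)]
      have h4 : ∀ j, ∫ g, (chi (π i) g * conj (chi (π j) g)).re ∂μ =
          (∫ g, chi (π i) g * conj (chi (π j) g) ∂μ).re := fun j =>
        Complex.reCLM.integral_comp_comm (intg (μ := μ) (c2 i j))
      simp only [h4]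
      rw [Finset.sum_eq_single i, int_conj_self (hc i) (hs i) hn]
      · intro j _ hj
        exact int_conj_ne (hc i) (hs i) (hc j) (hs j) (hne i j hj.symm)
      · intro h
        exact absurd (Finset.mem_univ i) h
    rw [Finset.sum_congr rfl fun i _ => h3 i]
    simp
  rw [h1, h2, div_self hr0]

theorem int_DD_lt [Nonempty ι] (hc : ∀ i, Continuous (π i)) (hs : ∀ i, Schur (π i)) (hn : n ≠ 0)
    (hne : ∀ i j, i ≠ j → chi (π i) ≠ chi (π j)) (hr : 2 ≤ Fintype.card ι) :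
    (∫ g, DD π g ∂μ) ^ 2 < Fintype.card ι - 1 := by
  set B := ∫ g, DD π g ∂μ with hB
  have hr' : (2 : ℝ) ≤ Fintype.card ι := by exact_mod_cast hr
  by_cases h0 : B = 0
  · rw [h0]
    simp only [ne_eq, OfNat.ofNat_ne_zero, not_false_eq_true, zero_pow]
    linarith
  have h1 : ∫ g, (DD π g - B) ^ 2 ∂μ = (Fintype.card ι - 1) - B ^ 2 := by
    rw [int_sub_sq (cont_DD hc) B, int_DD_sq hc hs hn hne, ← hB]
    ring
  have h2 : 0 < ∫ g, (DD π g - B) ^ 2 ∂μ := by
    have h5 : Continuous fun g => (DD π g - B) ^ 2 := ((cont_DD hc).sub continuous_const).pow 2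
    refine h5.integral_pos_of_hasCompactSupport_nonneg_nonzero
      (HasCompactSupport.of_compactSpace _) (fun g => sq_nonneg _) (x := 1) ?_
    rw [DD_one, zero_sub, neg_sq]
    exact pow_ne_zero 2 h0
  linarith

end

section

variable {K : Type} [Field K] [NumberField K]
variable {G : Type} [Group G] [TopologicalSpace G] [IsTopologicalGroup G] [CompactSpace G]
  [MeasurableSpace G] [BorelSpace G] {μ : Measure G} [IsProbabilityMeasure μ] [μ.IsHaarMeasure]
  {H : Type} [Group H] [MulDistribMulAction H G] {x : HeightOneSpectrum (𝓞 K) → G} {n : ℕ}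
  {ι : Type} [Fintype ι] {π : ι → G →* Matrix.unitaryGroup (Fin n) ℂ}

/-- equidistribution up to automorphisms -/
def LawH (H : Type) [Group H] [MulDistribMulAction H G] (x : HeightOneSpectrum (𝓞 K) → G)
    (μ : Measure G) : Prop :=
  ∀ f : G → ℂ, Continuous f → (∀ g h, f (h * g * h⁻¹) = f g) → (∀ (s : H) g, f (s • g) = f g) →
    Tendsto (mn fun v => f (x v)) atTop (𝓝 (∫ g, f g ∂μ))

theorem LawH.real (h : LawH H x μ) {f : G → ℝ} (hf : Continuous f)
    (h1 : ∀ g h, f (h * g * h⁻¹) = f g) (h2 : ∀ (s : H) g, f (s • g) = f g) :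
    Tendsto (mn fun v => f (x v)) atTop (𝓝 (∫ g, f g ∂μ)) := by
  have h3 := h (fun g => (f g : ℂ)) (Complex.continuous_ofReal.comp hf) (fun g h => by rw [h1])
    fun s g => by rw [h2 s g]
  have h0 : ∫ g, (f g : ℂ) ∂μ = ((∫ g, f g ∂μ : ℝ) : ℂ) := integral_ofReal
  rw [h0] at h3
  have h4 := (Complex.continuous_re.tendsto _).comp h3
  refine h4.congr fun N => ?_
  simp only [Function.comp]
  rw [re_mn]
  rfl

/-- a stable family of irreducible representations -/
structure Stab (H : Type) [Group H] [MulDistribMulAction H G]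
    (π : ι → G →* Matrix.unitaryGroup (Fin n) ℂ) : Prop where
  cont : ∀ i, Continuous (π i)
  schur : ∀ i, Schur (π i)
  nt : ∀ i, ∃ g, π i g ≠ 1
  ne : ∀ i j, i ≠ j → chi (π i) ≠ chi (π j)
  stable : ∀ (s : H) i, ∃ j, ∀ g, chi (π i) (s • g) = chi (π j) g

theorem Stab.n_ne (h : Stab H π) [Nonempty ι] : n ≠ 0 := by
  rintro rfl
  obtain ⟨i⟩ := ‹Nonempty ι›
  obtain ⟨g, hg⟩ := h.nt i
  exact hg (Subtype.ext (Subsingleton.elim _ _))

/-- the permutation given by an element of `H` -/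
theorem Stab.perm (h : Stab H π) (s : H) : ∃ e : ι ≃ ι, ∀ i g, chi (π i) (s • g) = chi (π (e i)) g := by
  choose f hf using h.stable s
  have hinj : Function.Injective f := by
    intro i j hij
    by_contra hne
    apply h.ne i j hne
    funext g
    have h1 := hf i (s⁻¹ • g)
    have h2 := hf j (s⁻¹ • g)
    rw [smul_inv_smul] at h1 h2
    rw [h1, h2, hij]
  exact ⟨Equiv.ofBijective f ⟨hinj, Finite.injective_iff_surjective.1 hinj⟩, hf⟩

theorem Stab.sum_inv (h : Stab H π) (s : H) (g : G) :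
    ∑ i, chi (π i) (s • g) = ∑ i, chi (π i) g := by
  obtain ⟨e, he⟩ := h.perm s
  simp only [he]
  exact Equiv.sum_comp e fun i => chi (π i) g

theorem Stab.DD_inv (h : Stab H π) (s : H) (g : G) : DD π (s • g) = DD π g := by
  unfold DD
  rw [h.sum_inv s g]
  obtain ⟨e, he⟩ := h.perm s
  simp only [he]
  rw [Equiv.sum_comp e fun i => ‖chi (π i) g‖ ^ 2]

theorem Stab.mean_sum (h : Stab H π) (hx : LawH H x μ) :
    Tendsto (mn fun v => ∑ i, chi (π i) (x v)) atTop (𝓝 0) := by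
  have h1 := hx (fun g => ∑ i, chi (π i) g) (continuous_finsetSum _ fun i _ => cont_chi (h.cont i))
    (fun g k => by simp only [chi_cls]) fun s g => h.sum_inv s g
  have h2 : ∫ g, ∑ i, chi (π i) g ∂μ = 0 := by
    rw [integral_finsetSum _ fun i _ => intg (cont_chi (h.cont i))]
    exact Finset.sum_eq_zero fun i _ => int_chi (h.cont i) (h.schur i) (h.nt i)
  rwa [h2] at h1

theorem Stab.mean_DD (h : Stab H π) (hx : LawH H x μ) :
    Tendsto (mn fun v => DD π (x v)) atTop (𝓝 (∫ g, DD π g ∂μ)) :=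
  hx.real (cont_DD h.cont) (fun g k => DD_cls g k) fun s g => h.DD_inv s g

variable {U : Ultrafilter ℝ} (hU : (U : Filter ℝ) ≤ 𝓝[>] 0)

include hU

theorem Stab.lm_sum (h : Stab H π) (hx : LawH H x μ) (τ : ℝ) : ∑ i, lm U (π i) x τ = 0 := by
  unfold lm
  rw [← M_sum (sysF K) hU Finset.univ fun i _ => bd_cf τ]
  have hb : Bc fun v => ∑ i, chi (π i) (x v) :=
    ⟨∑ _i : ι, (n : ℝ), fun v => (norm_sum_le _ _).trans
      (Finset.sum_le_sum fun i _ => norm_chi (π i) _)⟩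
  have h1 := M_height hU hb (h.mean_sum hx) τ
  rw [← h1]
  congr 1
  funext v
  unfold cf
  rw [← Complex.re_sum, ← Finset.sum_mul]

theorem Stab.lm_sq (h : Stab H π) [Nonempty ι] (hx : LawH H x μ) (τ : ℝ) :
    ∑ i, lm U (π i) x τ ^ 2 ≤ (∫ g, DD π g ∂μ) ^ 2 := by
  set a : ι → ℝ := fun i => lm U (π i) x τ with ha
  set A : ℝ := √(∑ i, a i ^ 2) with hA
  have hS : 0 ≤ ∑ i, a i ^ 2 := Finset.sum_nonneg fun i _ => sq_nonneg _
  have hA2 : A ^ 2 = ∑ i, a i ^ 2 := Real.sq_sqrt hS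
  have ha0 : ∑ i, a i = 0 := h.lm_sum hU hx τ
  have hbD : Bd fun v => DD π (x v) := bd_cont (cont_DD h.cont) x
  have hbc : ∀ i, Bd (cf (π i) x τ) := fun i => bd_cf τ
  have h1 : (M (nm K) U fun v => ∑ i, a i * cf (π i) x τ v) = ∑ i, a i ^ 2 := by
    rw [M_sum (sysF K) hU Finset.univ fun i _ => (hbc i).const_mul (a i)]
    refine Finset.sum_congr rfl fun i _ => ?_
    rw [M_const_mul (sysF K) hU (hbc i), sq]
    rfl
  have h2 : |M (nm K) U fun v => ∑ i, a i * cf (π i) x τ v| ≤ A * ∫ g, DD π g ∂μ := by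
    refine abs_M_le hU (Bd.sum Finset.univ fun i _ => (hbc i).const_mul (a i))
      (hbD.const_mul A) (f := fun v => A * DD π (x v)) ?_ fun v => ?_
    · have h3 := (h.mean_DD hx).const_mul A
      refine h3.congr fun N => ?_
      unfold mn
      rw [smul_eq_mul, smul_eq_mul, ← Finset.mul_sum]
      ring
    · have h3 : ∑ i, a i * cf (π i) x τ v =
          ((∑ i, (a i : ℂ) * chi (π i) (x v)) * ((nm K v : ℕ) : ℂ) ^ (-(τ * I : ℂ))).re := by
        rw [Finset.sum_mul, Complex.re_sum]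
        refine Finset.sum_congr rfl fun i _ => ?_
        unfold cf
        rw [mul_assoc, Complex.re_ofReal_mul]
      rw [h3]
      refine (Complex.abs_re_le_norm _).trans ?_
      rw [norm_mul, norm_cpow_I (nm_pos v), mul_one]
      have h4 := cs_zero a (fun i => chi (π i) (x v)) ha0
      rw [← DD_sq, ← hA2, ← mul_pow] at h4
      exact (pow_le_pow_iff_left₀ (norm_nonneg _)
        (mul_nonneg (Real.sqrt_nonneg _) (DD_nonneg _)) two_ne_zero).1 h4
  rw [h1, abs_of_nonneg hS, ← hA2] at h2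
  have hB : 0 ≤ ∫ g, DD π g ∂μ := integral_nonneg fun g => DD_nonneg g
  have hA0 : 0 ≤ A := Real.sqrt_nonneg _
  rw [← hA2]
  rcases hA0.eq_or_lt with h5 | h5
  · rw [← h5]
    simp only [ne_eq, OfNat.ofNat_ne_zero, not_false_eq_true, zero_pow]
    positivity
  · have h6 : A ≤ ∫ g, DD π g ∂μ := by
      rw [sq] at h2
      exact le_of_mul_le_mul_left h2 h5
    exact pow_le_pow_left₀ hA0 h6 2

end

end Pool.Agent.TH553.CZ
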