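import Pool.Agent.TH553.CZ.Inv

set_option autoImplicit false
set_option linter.unusedSectionVars false

/-!
# Equidistribution up to automorphisms: the conclusions
-/

namespace Pool.Agent.TH553.CZ

open Complex Filter Topology ComplexConjugate NumberField IsDedekindDomain MeasureTheory
  Pool.Agent.W540.BE Pool.Agent.TH553.RS Pool.Agent.TH553.ST

section

variable {K : Type} [Field K] [NumberField K]
variable {G : Type} [Group G] [TopologicalSpace G] [IsTopologicalGroup G] [CompactSpace G]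
  [MeasurableSpace G] [BorelSpace G] {μ : Measure G} [IsProbabilityMeasure μ] [μ.IsHaarMeasure]
  {H : Type} [Group H] [MulDistribMulAction H G] {x : HeightOneSpectrum (𝓞 K) → G} {n : ℕ}
  {ι : Type} [Fintype ι] {π : ι → G →* Matrix.unitaryGroup (Fin n) ℂ}

theorem Stab.size_sum (h : Stab H π) (hx : LawH H x μ) (τ : ℝ) :
    Tendsto (fun ε => ∑ i, sz1 (π i) x τ ε) (𝓝[>] 0) (𝓝 0) := by
  refine tendsto_of_ultra fun U hU => ?_
  rw [← h.lm_sum hU hx τ]
  exact tendsto_finsetSum _ fun i _ => size_lm hU τ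

theorem Stab.size_sq (h : Stab H π) (hx : LawH H x μ) (hr : 2 ≤ Fintype.card ι) (τ : ℝ) :
    ∃ δ : ℝ, 0 < δ ∧ ∀ᶠ ε : ℝ in 𝓝[>] 0,
      ∑ i, sz1 (π i) x τ ε ^ 2 ≤ (Fintype.card ι : ℝ) - 1 - δ := by
  have : Nonempty ι := Fintype.card_pos_iff.1 (by omega)
  have h1 := int_DD_lt (μ := μ) h.cont h.schur h.n_ne h.ne hr
  set B := ∫ g, DD π g ∂μ with hB
  refine ⟨((Fintype.card ι : ℝ) - 1 - B ^ 2) / 2, by linarith, eventually_of_ultra fun U hU => ?_⟩
  have h2 : Tendsto (fun ε => ∑ i, sz1 (π i) x τ ε ^ 2) U (𝓝 (∑ i, lm U (π i) x τ ^ 2)) :=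
    tendsto_finsetSum _ fun i _ => (size_lm hU τ).pow 2
  have h3 := h.lm_sq hU hx τ
  rw [← hB] at h3
  filter_upwards [h2.eventually_lt_const
    (show ∑ i, lm U (π i) x τ ^ 2 < (Fintype.card ι : ℝ) - 1 -
      ((Fintype.card ι : ℝ) - 1 - B ^ 2) / 2 by linarith)] with ε h4
  exact h4.le

theorem Stab.orders (h : Stab H π) (hx : LawH H x μ) {τ : ℝ} {m : ι → ℤ}
    (hm : ∀ i, Tendsto (sz1 (π i) x τ) (𝓝[>] 0) (𝓝 (-(m i : ℝ)))) :
    ∑ i, m i = 0 ∧ ((∀ i, m i = 0) ∨ ∑ i, (m i : ℝ) ^ 2 < (Fintype.card ι : ℝ) - 1) := by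
  have h1 : ∑ i, m i = 0 := by
    have h2 : Tendsto (fun ε => ∑ i, sz1 (π i) x τ ε) (𝓝[>] 0) (𝓝 (∑ i, -(m i : ℝ))) :=
      tendsto_finsetSum _ fun i _ => hm i
    have h3 := tendsto_nhds_unique h2 (h.size_sum hx τ)
    rw [Finset.sum_neg_distrib, neg_eq_zero] at h3
    exact_mod_cast h3
  refine ⟨h1, ?_⟩
  rcases Nat.lt_or_ge (Fintype.card ι) 2 with hr | hr
  · left
    have hsub : Subsingleton ι := Fintype.card_le_one_iff_subsingleton.1 (by omega)
    intro i
    have h2 : ∑ j, m j = m i := by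
      rw [Finset.sum_eq_single i (fun j _ hj => absurd (Subsingleton.elim j i) hj)
        fun h => absurd (Finset.mem_univ i) h]
    rw [← h2, h1]
  · right
    obtain ⟨δ, h2, h3⟩ := h.size_sq hx hr τ
    have h4 : Tendsto (fun ε => ∑ i, sz1 (π i) x τ ε ^ 2) (𝓝[>] 0) (𝓝 (∑ i, (-(m i : ℝ)) ^ 2)) :=
      tendsto_finsetSum _ fun i _ => (hm i).pow 2
    have h5 := le_of_tendsto h4 h3
    simp only [neg_sq] at h5
    linarith

theorem Stab.orders_three (h : Stab H π) (hx : LawH H x μ) {τ : ℝ} {m : ι → ℤ}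
    (hm : ∀ i, Tendsto (sz1 (π i) x τ) (𝓝[>] 0) (𝓝 (-(m i : ℝ)))) (hr : Fintype.card ι ≤ 3) :
    ∀ i, m i = 0 := by
  obtain ⟨h1, h2⟩ := h.orders hx hm
  rcases h2 with h2 | h2
  · exact h2
  · have h3 : (Fintype.card ι : ℝ) ≤ 3 := by exact_mod_cast hr
    have h4 : ∑ i, (m i : ℝ) ^ 2 < 2 := by linarith
    have h5 : ∑ i, (m i) ^ 2 < 2 := by exact_mod_cast h4
    have h6 : 2 ∣ ∑ i, (m i) ^ 2 := by
      have h7 : (2 : ℤ) ∣ ∑ i, ((m i) ^ 2 - m i) := by
        refine Finset.dvd_sum fun i _ => ?_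
        have := Int.even_mul_pred_self (m i)
        rw [sq, ← mul_sub_one]
        exact this.two_dvd
      rw [Finset.sum_sub_distrib, h1, sub_zero] at h7
      exact h7
    have h7 : 0 ≤ ∑ i, (m i) ^ 2 := Finset.sum_nonneg fun i _ => sq_nonneg _
    have h8 : ∑ i, (m i) ^ 2 = 0 := by omega
    intro i
    have h9 := (Finset.sum_eq_zero_iff_of_nonneg fun i _ => sq_nonneg (m i)).1 h8 i
      (Finset.mem_univ i)
    exact pow_eq_zero_iff two_ne_zero |>.1 h9

end

section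

variable {G : Type} [Group G] [TopologicalSpace G] {H : Type} [Group H]
  [MulDistribMulAction H G] {n : ℕ}

/-- the conjugate of `π` -/
def cg (s : H) (π : G →* Matrix.unitaryGroup (Fin n) ℂ) : G →* Matrix.unitaryGroup (Fin n) ℂ :=
  π.comp (MulDistribMulAction.toMonoidHom G s)

theorem cg_apply (s : H) (π : G →* Matrix.unitaryGroup (Fin n) ℂ) (g : G) :
    cg s π g = π (s • g) := rfl

theorem chi_cg (s : H) (π : G →* Matrix.unitaryGroup (Fin n) ℂ) (g : G) :
    chi (cg s π) g = chi π (s • g) := rfl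

/-- the orbit of the character -/
def orb (H : Type) [Group H] [MulDistribMulAction H G]
    (π : G →* Matrix.unitaryGroup (Fin n) ℂ) : Set (G → ℂ) :=
  Set.range fun (s : H) g => chi π (s • g)

variable [ContinuousConstSMul H G]

theorem stab_orb (π : G →* Matrix.unitaryGroup (Fin n) ℂ) (hc : Continuous π) (hs : Schur π)
    (hnt : ∃ g, π g ≠ 1) (hfin : (orb H π).Finite) :
    ∃ (ι : Type) (_ : Fintype ι) (s : ι → H), Fintype.card ι = (orb H π).ncard ∧
      (∃ i, ∀ g, chi (cg (s i) π) g = chi π g) ∧ Stab H fun i => cg (s i) π := by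
  classical
  choose! s hs1 using fun f : G → ℂ => fun hf : f ∈ orb H π => hf
  -- index the orbit by `Fin`
  obtain ⟨e⟩ : Nonempty (Fin (orb H π).ncard ≃ orb H π) := by
    let _ := hfin.fintype
    refine ⟨(Fintype.equivFinOfCardEq ?_).symm⟩
    rw [Set.ncard_eq_toFinset_card', Set.toFinset_card]
  have he : ∀ i, (fun g => chi π (s (e i) • g)) = (e i : G → ℂ) := fun i => hs1 (e i) (e i).2
  refine ⟨Fin (orb H π).ncard, inferInstance, fun i => s (e i), Fintype.card_fin _, ?_, ?_⟩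
  · have h1 : (fun g => chi π g) ∈ orb H π := ⟨1, by funext g; simp⟩
    refine ⟨e.symm ⟨_, h1⟩, fun g => ?_⟩
    have h2 := congrFun (he (e.symm ⟨_, h1⟩)) g
    rw [chi_cg]
    dsimp only
    rw [Equiv.apply_symm_apply] at h2 ⊢
    exact h2
  · refine ⟨fun i => ?_, fun i => ?_, fun i => ?_, fun i j hij heq => ?_, fun t i => ?_⟩
    · exact hc.comp (continuous_const_smul (s (e i)))
    · intro A hA
      refine hs A fun g => ?_
      have h1 := hA ((s (e i))⁻¹ • g)
      rw [cg_apply, smul_inv_smul] at h1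
      exact h1
    · obtain ⟨g, hg⟩ := hnt
      refine ⟨(s (e i))⁻¹ • g, ?_⟩
      rw [cg_apply, smul_inv_smul]
      exact hg
    · apply hij
      apply e.injective
      apply Subtype.ext
      rw [← he i, ← he j]
      funext g
      exact congrFun heq g
    · have h1 : (fun g => chi π ((s (e i) * t) • g)) ∈ orb H π := ⟨s (e i) * t, rfl⟩
      refine ⟨e.symm ⟨_, h1⟩, fun g => ?_⟩
      have h2 := congrFun (he (e.symm ⟨_, h1⟩)) g
      rw [chi_cg, chi_cg]
      dsimp only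
      rw [Equiv.apply_symm_apply] at h2 ⊢
      rw [smul_smul]
      exact h2.symm

end

end Pool.Agent.TH553.CZ
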